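import Pool.Agent.Helper17.SA.St5
import Pool.Agent.Helper64.SA.M_ISO

/-!
# Module LS2 of project SA: lifting through solvable normal subgroups
-/

set_option autoImplicit false

open scoped Pointwise

namespace Pool.Agent.Helper85.SA

open Equiv Pool.Agent.Helper17.SA
open scoped commutatorElement

theorem starAt_iso {G H : Type} [Group G] [Group H] [Finite G] [Finite H] (e : G ≃* H) {q : ℕ}
    (hq : q.Prime) (h : StarAt H q) : StarAt G q := by
  have : Fact q.Prime := ⟨hq⟩
  obtain ⟨P, Q, hPQ⟩ := h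
  refine ⟨Pool.Agent.Helper64.SA.pull e q P, Pool.Agent.Helper64.SA.pull e q Q, ?_⟩
  rintro x ⟨hx1, hx2⟩
  rw [Pool.Agent.Helper64.SA.mem_iInf_iff e q x]
  exact hPQ ⟨(Pool.Agent.Helper64.SA.mem_pull e q P x).1 hx1,
    (Pool.Agent.Helper64.SA.mem_pull e q Q x).1 hx2⟩

/-- A nontrivial solvable normal subgroup contains a nontrivial elementary abelian normal
subgroup. -/
theorem exists_elem {G : Type} [Group G] [Finite G] (M : Subgroup G) [M.Normal]
    [hs : Group.IsSolvable M] (hM : M ≠ ⊥) :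
    ∃ (r : ℕ) (N : Subgroup G), r.Prime ∧ N.Normal ∧ N ≤ M ∧ (∀ a ∈ N, ∀ b ∈ N, a * b = b * a) ∧
      (∀ a ∈ N, a ^ r = 1) ∧ ∃ a ∈ N, a ≠ 1 := by
  classical
  obtain ⟨n0, hn0⟩ := hs.solvable
  have hex : ∃ n, derivedSeries M n = ⊥ := ⟨n0, hn0⟩
  have h1 := Nat.find_spec hex
  have hnt : Nontrivial M := (Subgroup.nontrivial_iff_ne_bot M).2 hM
  have h0 : Nat.find hex ≠ 0 := by
    intro h
    rw [h, derivedSeries_zero] at h1
    exact top_ne_bot h1
  obtain ⟨m, hm⟩ := Nat.exists_eq_succ_of_ne_zero h0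
  have hne : derivedSeries M m ≠ ⊥ := Nat.find_min hex (by omega)
  have hch : (derivedSeries M m).Characteristic := derivedSeries_characteristic M m
  have hAc0 : ∀ a ∈ derivedSeries M m, ∀ b ∈ derivedSeries M m, a * b = b * a := by
    intro a ha b hb
    have h2 : ⁅a, b⁆ ∈ derivedSeries M (m + 1) := by
      rw [derivedSeries_succ]
      exact Subgroup.commutator_mem_commutator ha hb
    rw [← Nat.succ_eq_add_one, ← hm, h1, Subgroup.mem_bot] at h2
    exact commutatorElement_eq_one_iff_mul_comm.mp h2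
  set A : Subgroup G := (derivedSeries M m).map M.subtype with hA
  have hAn : A.Normal := ConjAct.normal_of_characteristic_of_normal
  have hAM : A ≤ M := by
    rintro _ ⟨a, -, rfl⟩
    exact a.2
  have hAc : ∀ a ∈ A, ∀ b ∈ A, a * b = b * a := by
    rintro _ ⟨a, ha, rfl⟩ _ ⟨b, hb, rfl⟩
    rw [← map_mul, hAc0 a ha b hb, map_mul]
  have hAne : A ≠ ⊥ := by
    intro h
    apply hne
    rw [eq_bot_iff]
    intro a ha
    have h3 : M.subtype a ∈ A := Subgroup.mem_map_of_mem _ ha
    rw [h, Subgroup.mem_bot] at h3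
    rw [Subgroup.mem_bot]
    exact Subtype.ext h3
  have hcard : Nat.card A ≠ 1 := by
    intro h
    exact hAne (Subgroup.card_eq_one.mp h)
  obtain ⟨r, hr, hrd⟩ := Nat.exists_prime_and_dvd hcard
  have : Fact r.Prime := ⟨hr⟩
  obtain ⟨⟨x, hxA⟩, hx⟩ := exists_prime_orderOf_dvd_card' (G := A) r hrd
  have hxr : x ^ r = 1 := by
    have h3 := pow_orderOf_eq_one (⟨x, hxA⟩ : A)
    rw [hx] at h3
    exact congrArg Subtype.val h3
  have hx1 : x ≠ 1 := by
    intro h
    have : (⟨x, hxA⟩ : A) = 1 := Subtype.ext h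
    rw [this, orderOf_one] at hx
    exact hr.one_lt.ne hx
  let N : Subgroup G :=
    { carrier := {a | a ∈ A ∧ a ^ r = 1}
      one_mem' := ⟨A.one_mem, one_pow _⟩
      mul_mem' := by
        rintro a b ⟨ha, ha'⟩ ⟨hb, hb'⟩
        refine ⟨A.mul_mem ha hb, ?_⟩
        have : Commute a b := hAc a ha b hb
        rw [this.mul_pow, ha', hb', one_mul]
      inv_mem' := by
        rintro a ⟨ha, ha'⟩
        exact ⟨A.inv_mem ha, by rw [inv_pow, ha', inv_one]⟩ }
  refine ⟨r, N, hr, ?_, fun a ha => hAM ha.1, fun a ha b hb => hAc a ha.1 b hb.1,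
    fun a ha => ha.2, ⟨x, ⟨hxA, hxr⟩, hx1⟩⟩
  constructor
  rintro n ⟨hn1, hn2⟩ g
  exact ⟨hAn.conj_mem n hn1 g, by rw [conj_pow, hn2, mul_one, mul_inv_cancel]⟩

theorem aux (h1 : StLS1) (n : ℕ) :
    ∀ (G : Type) [Group G] [Finite G] (N : Subgroup G) [N.Normal] (q : ℕ), Nat.card N = n →
    q.Prime → Group.IsSolvable N → q ≠ 2 → (Odd (Nat.card N) ∨ ∀ c : ℕ, q + 1 ≠ 2 ^ c) →
    StarAt (G ⧸ N) q → StarAt G q := by
  induction n using Nat.strong_induction_on with
  | _ n ih =>
    intro G _ _ N _ q hn hq hsol hq2 hodd hstar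
    by_cases hN : N = ⊥
    · subst hN
      exact starAt_iso (QuotientGroup.quotientBot (G := G)).symm hq hstar
    · obtain ⟨r, E, hr, hEn, hEN, hEc, hEr, a0, ha0, ha01⟩ := exists_elem N hN
      have hdvd : Nat.card (N.map (QuotientGroup.mk' E)) ∣ Nat.card N :=
        Subgroup.card_map_dvd N (QuotientGroup.mk' E)
      have hpos : 0 < Nat.card N := Nat.card_pos
      have hlt : Nat.card (N.map (QuotientGroup.mk' E)) < Nat.card N := by
        refine lt_of_le_of_ne (Nat.le_of_dvd hpos hdvd) ?_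
        intro heq
        have hsurj := (QuotientGroup.mk' E).subgroupMap_surjective N
        have hbij := (Nat.bijective_iff_surjective_and_card
          ((QuotientGroup.mk' E).subgroupMap N)).2 ⟨hsurj, heq.symm⟩
        have h2 : (⟨a0, hEN ha0⟩ : N) = 1 := by
          apply hbij.1
          rw [map_one]
          apply Subtype.ext
          change (QuotientGroup.mk' E) a0 = 1
          exact (QuotientGroup.eq_one_iff a0).2 ha0
        exact ha01 (congrArg Subtype.val h2)
      have hNn : (N.map (QuotientGroup.mk' E)).Normal :=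
        Subgroup.Normal.map inferInstance _ (QuotientGroup.mk'_surjective E)
      have hsol' : Group.IsSolvable (N.map (QuotientGroup.mk' E)) :=
        Group.isSolvable_of_surjective ((QuotientGroup.mk' E).subgroupMap_surjective N)
      have hstar' : StarAt (G ⧸ E) q := by
        refine ih _ (hn ▸ hlt) (G ⧸ E) (N.map (QuotientGroup.mk' E)) q rfl hq hsol' hq2 ?_ ?_
        · rcases hodd with h | h
          · exact Or.inl (h.of_dvd_nat hdvd)
          · exact Or.inr h
        · exact starAt_iso (QuotientGroup.quotientQuotientEquivQuotient E N hEN) hq hstar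
      refine h1 G E r q hr hq hEc hEr hq2 ?_ hstar'
      rcases hodd with h | h
      · exact Or.inl (h.of_dvd_nat (Subgroup.card_dvd_of_le hEN))
      · exact Or.inr h

theorem pLS2 : StLS1 → StISO → StLS2 := by
  intro h1 _ G _ _ N _ q hq hsol hq2 hodd hstar
  exact aux h1 _ G N q rfl hq hsol hq2 hodd hstar

end Pool.Agent.Helper85.SA
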